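import Mathlib

/-!
The number of `u` modulo a product of primes with `u` and `1 + d u` both invertible.
-/

set_option autoImplicit false

namespace Pool.Agent.P8H19.AGP

open Finset

open Classical in
/-- the classes `u` modulo `L` with `u` and `1 + d u` invertible -/
noncomputable def good (L d : ℕ) [NeZero L] : Finset (ZMod L) :=
  univ.filter (fun u => IsUnit u ∧ IsUnit (1 + (d : ZMod L) * u))

theorem good_mul {m n : ℕ} [NeZero m] [NeZero n] [NeZero (m * n)] (h : m.Coprime n) (d : ℕ) :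
    (good (m * n) d).card = (good m d).card * (good n d).card := by
  classical
  rw [← Finset.card_product]
  apply Finset.card_equiv (ZMod.chineseRemainder h).toEquiv
  intro u
  simp only [good, mem_filter, mem_univ, true_and, mem_product]
  have h1 : ∀ v : ZMod (m * n), IsUnit v ↔
      IsUnit ((ZMod.chineseRemainder h) v).1 ∧ IsUnit ((ZMod.chineseRemainder h) v).2 := by
    intro v
    rw [← Prod.isUnit_iff]
    exact (MulEquiv.isUnit_map (ZMod.chineseRemainder h).toMulEquiv).symm
  rw [h1 u, h1 (1 + (d : ZMod (m * n)) * u)]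
  simp only [map_add, map_one, map_mul, map_natCast, Prod.fst_add, Prod.snd_add, Prod.fst_one,
    Prod.snd_one, Prod.fst_mul, Prod.snd_mul, Prod.fst_natCast, Prod.snd_natCast]
  change _ ↔ (IsUnit ((ZMod.chineseRemainder h) u).1 ∧ _) ∧ (IsUnit ((ZMod.chineseRemainder h) u).2 ∧ _)
  tauto

theorem good_prime {q : ℕ} (hq : q.Prime) [NeZero q] (d : ℕ) : q ≤ (good q d).card + 2 := by
  classical
  have : Fact q.Prime := ⟨hq⟩
  have h1 : (univ : Finset (ZMod q)).card = q := by rw [card_univ, ZMod.card]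
  have h2 : (univ : Finset (ZMod q)) ⊆ good q d ∪ ({0, -((d : ZMod q)⁻¹)} : Finset (ZMod q)) := by
    intro u _
    rw [mem_union]
    by_cases hu : u = 0
    · right; simp [hu]
    · by_cases hd : 1 + (d : ZMod q) * u = 0
      · right
        have hd0 : (d : ZMod q) ≠ 0 := by
          intro h0
          rw [h0, zero_mul, add_zero] at hd
          exact one_ne_zero hd
        have : u = -((d : ZMod q)⁻¹) := by
          field_simp
          linear_combination hd
        simp [this]
      · left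
        simp only [good, mem_filter, mem_univ, true_and]
        exact ⟨isUnit_iff_ne_zero.2 hu, isUnit_iff_ne_zero.2 hd⟩
  have h3 := card_le_card h2
  have h4 := card_union_le (good q d) ({0, -((d : ZMod q)⁻¹)} : Finset (ZMod q))
  have h5 : ({0, -((d : ZMod q)⁻¹)} : Finset (ZMod q)).card ≤ 2 := Finset.card_le_two
  omega

theorem good_ge (Q : Finset ℕ) (hQ : ∀ q ∈ Q, q.Prime ∧ 5 ≤ q) (d : ℕ) :
    ∀ (L : ℕ) [NeZero L], L = ∏ q ∈ Q, q →
    (3 / 5 : ℝ) ^ Q.card * (L : ℝ) ≤ ((good L d).card : ℝ) := by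
  classical
  induction Q using Finset.induction_on with
  | empty =>
    intro L hL0 hL
    rw [prod_empty] at hL
    subst hL
    have h1 : good 1 d = univ := by
      ext u
      simp only [good, mem_filter, mem_univ, true_and, iff_true]
      exact ⟨isUnit_of_subsingleton _, isUnit_of_subsingleton _⟩
    rw [h1]
    simp
  | insert q Q hq ih =>
    intro L hL0 hL
    have hq' := hQ q (mem_insert_self _ _)
    have hQ' : ∀ r ∈ Q, r.Prime ∧ 5 ≤ r := fun r hr => hQ r (mem_insert_of_mem hr)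
    have hne : (∏ r ∈ Q, r) ≠ 0 := Finset.prod_ne_zero_iff.2 fun r hr => (hQ' r hr).1.ne_zero
    obtain ⟨L₁, hL₁⟩ : ∃ L₁, L₁ = ∏ r ∈ Q, r := ⟨_, rfl⟩
    rw [← hL₁] at hne
    have i1 : NeZero L₁ := ⟨hne⟩
    have i2 : NeZero q := ⟨hq'.1.ne_zero⟩
    have ih' := ih hQ' L₁ hL₁
    have hco : q.Coprime L₁ := by
      rw [hL₁, Nat.coprime_prod_right_iff]
      intro r hr
      rw [Nat.coprime_primes hq'.1 (hQ' r hr).1]
      rintro rfl
      exact hq hr
    rw [prod_insert hq, ← hL₁] at hL
    subst hL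
    rw [good_mul hco, card_insert_of_notMem hq, pow_succ]
    push_cast
    have h3 : (3 / 5 : ℝ) * q ≤ ((good q d).card : ℝ) := by
      have h4 := good_prime hq'.1 d
      have h5 : (q : ℝ) ≤ ((good q d).card : ℝ) + 2 := by exact_mod_cast h4
      have h6 : (5 : ℝ) ≤ q := by exact_mod_cast hq'.2
      linarith
    calc (3 / 5 : ℝ) ^ Q.card * (3 / 5) * (q * (L₁ : ℝ))
        = (3 / 5 * q) * ((3 / 5 : ℝ) ^ Q.card * (L₁ : ℝ)) := by ring
      _ ≤ _ := mul_le_mul h3 ih' (by positivity) (by positivity)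

/-- the same for natural numbers -/
theorem count_ge (Q : Finset ℕ) (hQ : ∀ q ∈ Q, q.Prime ∧ 5 ≤ q) (d : ℕ) :
    (3 / 5 : ℝ) ^ Q.card * ((∏ q ∈ Q, q : ℕ) : ℝ) ≤
      (((range (∏ q ∈ Q, q)).filter (fun u => u.Coprime (∏ q ∈ Q, q) ∧
        (1 + d * u).Coprime (∏ q ∈ Q, q))).card : ℝ) := by
  classical
  have hne : (∏ r ∈ Q, r) ≠ 0 := Finset.prod_ne_zero_iff.2 fun r hr => (hQ r hr).1.ne_zero
  obtain ⟨L, hL⟩ : ∃ L, L = ∏ r ∈ Q, r := ⟨_, rfl⟩
  rw [← hL] at hne ⊢
  have i1 : NeZero L := ⟨hne⟩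
  refine (good_ge Q hQ d L hL).trans ?_
  have h : (good L d).card ≤ ((range L).filter (fun u => u.Coprime L ∧
        (1 + d * u).Coprime L)).card := by
    apply Finset.card_le_card_of_injOn (fun u => u.val)
    · intro u hu
      rw [mem_coe] at hu ⊢
      simp only [good, mem_filter, mem_univ, true_and] at hu
      rw [mem_filter, mem_range]
      refine ⟨ZMod.val_lt u, ?_, ?_⟩
      · rw [← ZMod.isUnit_iff_coprime, ZMod.natCast_zmod_val]
        exact hu.1
      · rw [← ZMod.isUnit_iff_coprime]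
        push_cast
        rw [ZMod.natCast_zmod_val]
        exact hu.2
    · intro u _ v _ huv
      exact ZMod.val_injective _ huv
  exact_mod_cast h

end Pool.Agent.P8H19.AGP
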