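import Mathlib

/-!
Fermat liars of a squarefree number `n` with `p - 1 ∣ n - 1` for all `p ∣ n`.
-/

set_option autoImplicit false

namespace Pool.Agent.P8H19.AGP

open Finset

theorem liars {T : Finset ℕ} (hT : ∀ p ∈ T, p.Prime)
    (h : ∀ p ∈ T, p - 1 ∣ ∏ p ∈ T, p - 1) :
    ((∏ p ∈ T, p).totient) ≤
      ((range (∏ p ∈ T, p)).filter
        (fun a => a ^ ((∏ p ∈ T, p) - 1) ≡ 1 [MOD ∏ p ∈ T, p])).card := by
  obtain ⟨n, hn⟩ : ∃ n, n = ∏ p ∈ T, p := ⟨_, rfl⟩
  rw [← hn] at h ⊢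
  rw [Nat.totient]
  apply card_le_card
  intro a ha
  rw [mem_filter] at ha ⊢
  refine ⟨ha.1, ?_⟩
  have hn0 : 0 < n := by rw [hn]; exact Finset.prod_pos fun p hp => (hT p hp).pos
  rcases Nat.eq_zero_or_pos a with h0 | ha0
  · rw [h0] at ha
    have h1 : n = 1 := by simpa using ha.2
    rw [h1]
    exact Nat.modEq_one
  · have hpow : 1 ≤ a ^ (n - 1) := Nat.one_le_pow _ _ ha0
    apply Nat.ModEq.symm
    rw [Nat.modEq_iff_dvd' hpow]
    conv_lhs => rw [hn]
    apply Finset.prod_primes_dvd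
    · intro p hp; exact (hT p hp).prime
    · intro p hp
      have hpp := hT p hp
      have : Fact p.Prime := ⟨hpp⟩
      rw [← Nat.modEq_iff_dvd' hpow]
      apply Nat.ModEq.symm
      have hpn : p ∣ n := by rw [hn]; exact Finset.dvd_prod_of_mem _ hp
      have hco : a.Coprime p := (Nat.Coprime.coprime_dvd_left hpn ha.2).symm
      rw [← ZMod.natCast_eq_natCast_iff]
      push_cast
      obtain ⟨k, hk⟩ := h p hp
      rw [hk, pow_mul]
      have ha' : ((a : ℕ) : ZMod p) ≠ 0 := by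
        rw [Ne, ZMod.natCast_eq_zero_iff]
        intro hd
        have := Nat.Coprime.eq_one_of_dvd hco.symm hd
        exact hpp.one_lt.ne' this
      rw [ZMod.pow_card_sub_one_eq_one ha', one_pow]

theorem one_sub_sum_le (T : Finset ℕ) (hT : ∀ p ∈ T, 1 ≤ p) :
    1 - ∑ p ∈ T, (1 : ℝ) / p ≤ ∏ p ∈ T, (1 - (1 : ℝ) / p) := by
  classical
  induction T using Finset.induction_on with
  | empty => simp
  | insert q T hq ih =>
    rw [sum_insert hq, prod_insert hq]
    have h1 := ih fun p hp => hT p (mem_insert_of_mem hp)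
    have hq1 : (1 : ℝ) ≤ q := by exact_mod_cast hT q (mem_insert_self _ _)
    have h2 : (0 : ℝ) ≤ 1 / q := by positivity
    have h3 : (1 : ℝ) / q ≤ 1 := by rw [div_le_one (by linarith)]; exact hq1
    have h4 : ∏ p ∈ T, (1 - (1 : ℝ) / p) ≤ 1 := by
      apply Finset.prod_le_one
      · intro p hp
        have hp1 : (1 : ℝ) ≤ p := by exact_mod_cast hT p (mem_insert_of_mem hp)
        have : (1 : ℝ) / p ≤ 1 := by rw [div_le_one (by linarith)]; exact hp1
        linarith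
      · intro p hp
        have : (0 : ℝ) ≤ 1 / p := by positivity
        linarith
    have h5 : (0 : ℝ) ≤ ∏ p ∈ T, (1 - (1 : ℝ) / p) := by
      apply Finset.prod_nonneg
      intro p hp
      have hp1 : (1 : ℝ) ≤ p := by exact_mod_cast hT p (mem_insert_of_mem hp)
      have : (1 : ℝ) / p ≤ 1 := by rw [div_le_one (by linarith)]; exact hp1
      linarith
    nlinarith

theorem totient_ge {T : Finset ℕ} (hT : ∀ p ∈ T, p.Prime) :
    ((∏ p ∈ T, p : ℕ) : ℝ) * (1 - ∑ p ∈ T, (1 : ℝ) / p) ≤ ((∏ p ∈ T, p).totient : ℝ) := by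
  have h1 := Nat.totient_eq_mul_prod_factors (∏ p ∈ T, p)
  rw [Nat.primeFactors_prod hT] at h1
  have h2 : ((∏ p ∈ T, p).totient : ℝ) = ((∏ p ∈ T, p : ℕ) : ℝ) * ∏ p ∈ T, (1 - (p : ℝ)⁻¹) := by
    have h3 := congrArg (fun x : ℚ => (x : ℝ)) h1
    push_cast at h3 ⊢
    exact h3
  rw [h2]
  apply mul_le_mul_of_nonneg_left _ (Nat.cast_nonneg _)
  have := one_sub_sum_le T fun p hp => (hT p hp).one_lt.le
  simpa only [one_div] using this

end Pool.Agent.P8H19.AGP
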