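import Mathlib

/-!
Short product-one subsequences in `(ZMod L)ˣ`: the argument of van Emde Boas, Kruyswijk and Meshulam.
-/

set_option autoImplicit false

namespace Pool.Agent.P8H19.AGP

open Finset

/-- the character avoids the values `c i` -/
def Avoid {ι : Type*} {L : ℕ} (a : ι → ZMod L) (c : ι → ℂ) (s : Finset ι) (χ : DirichletCharacter ℂ L) : Prop :=
  ∀ i ∈ s, χ (a i) ≠ c i

open Classical in
/-- greedy choice of values avoided by few characters -/
theorem greedy {ι : Type*} {L m : ℕ} [NeZero L] (hm : 1 ≤ m)
    (a : ι → ZMod L) (s : Finset ι) (ha : ∀ i ∈ s, a i ^ m = 1) :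
    ∃ c : ι → ℂ, (∀ i, c i ≠ 0) ∧
      (((univ : Finset (DirichletCharacter ℂ L)).filter
        (fun χ => Avoid a c s χ)).card : ℝ) ≤ (L.totient : ℝ) * (1 - 1 / (m : ℝ)) ^ s.card := by
  induction s using Finset.induction_on with
  | empty =>
    refine ⟨fun _ => 1, fun _ => one_ne_zero, ?_⟩
    have h := DirichletCharacter.card_eq_totient_of_hasEnoughRootsOfUnity ℂ L
    rw [Nat.card_eq_fintype_card] at h
    simp only [Avoid, notMem_empty, ne_eq, IsEmpty.forall_iff, implies_true, filter_true, card_empty,
      pow_zero, mul_one, card_univ, h]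
    exact le_rfl
  | insert i s hi ih =>
    obtain ⟨c, hc0, hc⟩ := ih fun j hj => ha j (mem_insert_of_mem hj)
    obtain ⟨R, hR⟩ : ∃ R, R = (univ : Finset (DirichletCharacter ℂ L)).filter
        (fun χ => Avoid a c s χ) := ⟨_, rfl⟩
    rw [← hR] at hc
    have hm0 : (0 : ℝ) < m := by exact_mod_cast hm
    -- the most popular value
    obtain ⟨w, hw0, hw⟩ : ∃ w : ℂ, w ≠ 0 ∧ (R.card : ℝ) / m ≤ ((R.filter (fun χ => χ (a i) = w)).card : ℝ) := by
      by_contra hcon
      push Not at hcon
      have h1 : ∀ χ ∈ R, χ (a i) ∈ Polynomial.nthRootsFinset m (1 : ℂ) := by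
        intro χ _
        rw [Polynomial.mem_nthRootsFinset (by omega), ← map_pow, ha i (mem_insert_self _ _), map_one]
      have h2 := Finset.card_eq_sum_card_fiberwise (f := fun χ : DirichletCharacter ℂ L => χ (a i))
        (s := R) (t := Polynomial.nthRootsFinset m (1 : ℂ)) h1
      have hcard : (Polynomial.nthRootsFinset m (1 : ℂ)).card ≤ m := by
        have := Polynomial.card_nthRoots m (1 : ℂ)
        refine le_trans ?_ this
        unfold Polynomial.nthRootsFinset
        exact Multiset.toFinset_card_le _
      rcases Finset.eq_empty_or_nonempty (Polynomial.nthRootsFinset m (1 : ℂ)) with he | hne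
      · have : (1 : ℂ) ∈ Polynomial.nthRootsFinset m (1 : ℂ) := by
          rw [Polynomial.mem_nthRootsFinset (by omega)]; simp
        rw [he] at this
        simp at this
      · have h3 : (R.card : ℝ) < ∑ _w ∈ Polynomial.nthRootsFinset m (1 : ℂ), (R.card : ℝ) / m := by
          rw [h2]
          push_cast
          apply Finset.sum_lt_sum_of_nonempty hne
          intro w hw
          have hw0 : w ≠ 0 := by
            intro h0
            rw [Polynomial.mem_nthRootsFinset (by omega), h0, zero_pow (by omega)] at hw
            exact zero_ne_one hw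
          have := hcon w hw0
          rw [h2] at this
          push_cast at this
          exact this
        rw [Finset.sum_const, nsmul_eq_mul] at h3
        have h4 : ((Polynomial.nthRootsFinset m (1 : ℂ)).card : ℝ) * ((R.card : ℝ) / m) ≤
            m * ((R.card : ℝ) / m) := by
          apply mul_le_mul_of_nonneg_right _ (by positivity)
          exact_mod_cast hcard
        have h5 : (m : ℝ) * ((R.card : ℝ) / m) = R.card := by field_simp
        linarith
    refine ⟨Function.update c i w, ?_, ?_⟩
    · intro j
      by_cases hj : j = i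
      · subst hj; rw [Function.update_self]; exact hw0
      · rw [Function.update_of_ne hj]; exact hc0 j
    · have hsub : (univ : Finset (DirichletCharacter ℂ L)).filter
          (fun χ => Avoid a (Function.update c i w) (insert i s) χ) =
          R.filter (fun χ => ¬ χ (a i) = w) := by
        ext χ
        rw [hR, mem_filter, mem_filter, mem_filter]
        simp only [Avoid, mem_univ, true_and, mem_insert, forall_eq_or_imp,
          Function.update_self]
        constructor
        · rintro ⟨h1, h2⟩
          refine ⟨fun j hj => ?_, h1⟩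
          have := h2 j hj
          rwa [Function.update_of_ne (by rintro rfl; exact hi hj)] at this
        · rintro ⟨h1, h2⟩
          refine ⟨h2, fun j hj => ?_⟩
          rw [Function.update_of_ne (by rintro rfl; exact hi hj)]
          exact h1 j hj
      rw [hsub, card_insert_of_notMem hi, pow_succ]
      have h6 : (R.filter (fun χ => χ (a i) = w)).card + (R.filter (fun χ => ¬ χ (a i) = w)).card =
          R.card := Finset.card_filter_add_card_filter_not _
      have h7 : ((R.filter (fun χ => χ (a i) = w)).card : ℝ) +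
          ((R.filter (fun χ => ¬ χ (a i) = w)).card : ℝ) = R.card := by exact_mod_cast h6
      have h8 : ((R.filter (fun χ => ¬ χ (a i) = w)).card : ℝ) ≤ (R.card : ℝ) * (1 - 1 / m) := by
        have : (R.card : ℝ) * (1 - 1 / m) = R.card - R.card / m := by ring
        rw [this]; linarith
      have h9 : (0 : ℝ) ≤ 1 - 1 / m := by
        have : (1 : ℝ) / m ≤ 1 := by
          rw [div_le_one hm0]; exact_mod_cast hm
        linarith
      calc _ ≤ (R.card : ℝ) * (1 - 1 / m) := h8
        _ ≤ (L.totient : ℝ) * (1 - 1 / (m : ℝ)) ^ s.card * (1 - 1 / m) :=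
            mul_le_mul_of_nonneg_right hc h9
        _ = _ := by ring

open Classical in
/-- **Zero-sum lemma.** -/
theorem zero_sum {ι : Type*} {L m : ℕ} [NeZero L] (hm : 1 ≤ m)
    (a : ι → ZMod L) (s : Finset ι) (ha : ∀ i ∈ s, a i ^ m = 1)
    (hs : (L.totient : ℝ) * (1 - 1 / (m : ℝ)) ^ s.card < 1) :
    ∃ t ⊆ s, t.Nonempty ∧ ∏ i ∈ t, a i = 1 := by
  obtain ⟨c, hc0, hc⟩ := greedy hm a s ha
  have h1 : (((univ : Finset (DirichletCharacter ℂ L)).filter
        (fun χ => Avoid a c s χ)).card : ℝ) < 1 := lt_of_le_of_lt hc hs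
  have h2 : ((univ : Finset (DirichletCharacter ℂ L)).filter
        (fun χ => Avoid a c s χ)).card = 0 := by
    have : ((univ : Finset (DirichletCharacter ℂ L)).filter
        (fun χ => Avoid a c s χ)).card < 1 := by exact_mod_cast h1
    omega
  have h3 : ∀ χ : DirichletCharacter ℂ L, ∏ i ∈ s, (-(χ (a i)) + c i) = 0 := by
    intro χ
    by_contra hne
    have : χ ∈ (univ : Finset (DirichletCharacter ℂ L)).filter
        (fun χ => Avoid a c s χ) := by
      rw [mem_filter]
      refine ⟨mem_univ _, fun i hi h => hne ?_⟩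
      exact Finset.prod_eq_zero hi (by rw [h]; ring)
    rw [Finset.card_eq_zero] at h2
    rw [h2] at this
    simp at this
  by_contra hcon
  push Not at hcon
  have h4 : ∑ χ : DirichletCharacter ℂ L, ∏ i ∈ s, (-(χ (a i)) + c i) = 0 :=
    Finset.sum_eq_zero fun χ _ => h3 χ
  have h5 : ∀ χ : DirichletCharacter ℂ L, ∏ i ∈ s, (-(χ (a i)) + c i) =
      ∑ t ∈ s.powerset, ((-1) ^ t.card * ∏ i ∈ s \ t, c i) * χ (∏ i ∈ t, a i) := by
    intro χ
    rw [Finset.prod_add]
    apply sum_congr rfl
    intro t _
    rw [map_prod, Finset.prod_neg]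
    ring
  simp_rw [h5] at h4
  rw [Finset.sum_comm] at h4
  simp_rw [← Finset.mul_sum, DirichletCharacter.sum_characters_eq ℂ] at h4
  rw [Finset.sum_eq_single ∅] at h4
  · simp only [card_empty, pow_zero, sdiff_empty, one_mul, prod_empty, if_true] at h4
    have h6 : (∏ i ∈ s, c i) ≠ 0 := Finset.prod_ne_zero_iff.2 fun i _ => hc0 i
    have h7 : (L.totient : ℂ) ≠ 0 := by
      have := Nat.totient_pos.2 (NeZero.pos L)
      exact_mod_cast this.ne'
    exact (mul_ne_zero h6 h7) h4
  · intro t ht htne
    rw [if_neg, mul_zero]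
    exact hcon t (mem_powerset.1 ht) (Finset.nonempty_iff_ne_empty.2 htne)
  · intro h
    exact absurd (empty_mem_powerset s) h

end Pool.Agent.P8H19.AGP
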