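import Mathlib
import Pool.Agent.P8H19.AGP.ZeroSum
import Pool.Agent.P8H19.AGP.Liars

/-!
From many primes `1 + d k` to a product `n` of some of them with `p - 1 ∣ n - 1`.
-/

set_option autoImplicit false

namespace Pool.Agent.P8H19.AGP

open Finset

theorem step {L z k m k₀ : ℕ} (A : Finset ℕ) (hL0 : 0 < L) (hLz : L ≤ z) (hk : 0 < k)
    (hkL : k.Coprime L) (hA : ∀ d ∈ A, d ∣ L ∧ d ≠ L ∧ (1 + d * k).Prime ∧ z < 1 + d * k)
    (hm : 1 ≤ m) (hexp : ∀ a : ℕ, a.Coprime L → a ^ m ≡ 1 [MOD L])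
    (hk₀ : k₀ ≤ A.card) (hs : (L.totient : ℝ) * (1 - 1 / (m : ℝ)) ^ k₀ < 1) :
    ∃ T : Finset ℕ, (∀ p ∈ T, p.Prime ∧ z < p) ∧ 2 ≤ T.card ∧ T.card ≤ k₀ ∧
      ∀ p ∈ T, p - 1 ∣ ∏ p ∈ T, p - 1 := by
  classical
  have : NeZero L := ⟨hL0.ne'⟩
  obtain ⟨s, hsA, hscard⟩ := Finset.exists_subset_card_eq hk₀
  have hunit : ∀ d ∈ A, (1 + d * k).Coprime L := by
    intro d hd
    obtain ⟨_, _, h3, h4⟩ := hA d hd
    rw [Nat.Prime.coprime_iff_not_dvd h3]
    intro h5
    have := Nat.le_of_dvd hL0 h5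
    omega
  rw [← hscard] at hs
  obtain ⟨t, hts, htne, ht⟩ := zero_sum hm (fun d : ℕ => ((1 + d * k : ℕ) : ZMod L)) s
    (fun d hd => by
      have h1 := hexp _ (hunit d (hsA hd))
      rw [← ZMod.natCast_eq_natCast_iff] at h1
      rw [← Nat.cast_pow, h1, Nat.cast_one]) hs
  have htA : t ⊆ A := hts.trans hsA
  have hinj : Set.InjOn (fun d : ℕ => 1 + d * k) (t : Set ℕ) := by
    intro d _ d' _ hdd
    simp only at hdd
    exact Nat.eq_of_mul_eq_mul_right hk (by omega)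
  have hprod : ∏ p ∈ t.image (fun d => 1 + d * k), p = ∏ d ∈ t, (1 + d * k) :=
    Finset.prod_image hinj
  obtain ⟨n, hn⟩ : ∃ n, n = ∏ d ∈ t, (1 + d * k) := ⟨_, rfl⟩
  have hn0 : 0 < n := by rw [hn]; exact Finset.prod_pos fun d _ => by omega
  have hnL : 1 ≡ n [MOD L] := by
    rw [← ZMod.natCast_eq_natCast_iff, hn, Nat.cast_prod, ht, Nat.cast_one]
  have hnk : 1 ≡ n [MOD k] := by
    apply Nat.ModEq.symm
    rw [← ZMod.natCast_eq_natCast_iff, hn, Nat.cast_prod, Nat.cast_one]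
    apply Finset.prod_eq_one
    intro d _
    push_cast
    simp
  have hkLn : k * L ∣ n - 1 :=
    Nat.Coprime.mul_dvd_of_dvd_of_dvd hkL ((Nat.modEq_iff_dvd' hn0).1 hnk)
      ((Nat.modEq_iff_dvd' hn0).1 hnL)
  refine ⟨t.image (fun d => 1 + d * k), ?_, ?_, ?_, ?_⟩
  · intro p hp
    rw [mem_image] at hp
    obtain ⟨d, hd, rfl⟩ := hp
    exact (hA d (htA hd)).2.2
  · rw [Finset.card_image_of_injOn hinj]
    by_contra hcon
    have h1 : t.card = 1 := by
      have := htne.card_pos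
      omega
    obtain ⟨d, hd⟩ := Finset.card_eq_one.1 h1
    have hdA : d ∈ A := htA (by rw [hd]; exact mem_singleton_self d)
    obtain ⟨h3, h4, _, _⟩ := hA d hdA
    apply h4
    rw [hn, hd, Finset.prod_singleton] at hnL
    have h5 : L ∣ 1 + d * k - 1 := (Nat.modEq_iff_dvd' (by omega)).1 hnL
    rw [Nat.add_sub_cancel_left] at h5
    exact Nat.dvd_antisymm h3 (Nat.Coprime.dvd_of_dvd_mul_right hkL.symm h5)
  · rw [Finset.card_image_of_injOn hinj, ← hscard]
    exact Finset.card_le_card hts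
  · intro p hp
    rw [hprod, ← hn]
    rw [mem_image] at hp
    obtain ⟨d, hd, rfl⟩ := hp
    rw [Nat.add_sub_cancel_left]
    refine dvd_trans ?_ hkLn
    rw [mul_comm k L]
    exact Nat.mul_dvd_mul_right (hA d (htA hd)).1 k

/-- the exponent of the group of units modulo a product of primes `q` with `q - 1 ∣ m` -/
theorem exponent {L m : ℕ} (Q : Finset ℕ) (hQ : ∀ q ∈ Q, q.Prime) (hL : L = ∏ q ∈ Q, q)
    (h : ∀ q ∈ Q, q - 1 ∣ m) (a : ℕ) (ha : a.Coprime L) : a ^ m ≡ 1 [MOD L] := by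
  rcases Nat.eq_zero_or_pos a with h0 | ha0
  · rw [h0] at ha
    have h1 : L = 1 := by simpa using ha
    rw [h1]
    exact Nat.modEq_one
  · have hpow : 1 ≤ a ^ m := Nat.one_le_pow _ _ ha0
    apply Nat.ModEq.symm
    rw [Nat.modEq_iff_dvd' hpow, hL]
    apply Finset.prod_primes_dvd
    · intro p hp; exact (hQ p hp).prime
    · intro p hp
      have hpp := hQ p hp
      have : Fact p.Prime := ⟨hpp⟩
      rw [← Nat.modEq_iff_dvd' hpow]
      apply Nat.ModEq.symm
      have hpn : p ∣ L := by rw [hL]; exact Finset.dvd_prod_of_mem _ hp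
      have hco : a.Coprime p := Nat.Coprime.coprime_dvd_right hpn ha
      rw [← ZMod.natCast_eq_natCast_iff]
      push_cast
      obtain ⟨k, hk⟩ := h p hp
      rw [hk, pow_mul]
      have ha' : ((a : ℕ) : ZMod p) ≠ 0 := by
        rw [Ne, ZMod.natCast_eq_zero_iff]
        intro hd
        have := Nat.Coprime.eq_one_of_dvd hco.symm hd
        exact hpp.one_lt.ne' this
      rw [ZMod.pow_card_sub_one_eq_one ha', one_pow]

/-- smooth numbers divide a power of the primorial -/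
theorem dvd_primorial_pow {n y T : ℕ} (hn : n ≠ 0) (hnT : n ≤ T)
    (hs : ∀ p : ℕ, p.Prime → p ∣ n → p ≤ y) : n ∣ (primorial y) ^ (Nat.log 2 T) := by
  have hp0 : primorial y ≠ 0 := (primorial_pos y).ne'
  rw [← Nat.factorization_prime_le_iff_dvd hn (pow_ne_zero _ hp0)]
  intro p hp
  rw [Nat.factorization_pow, Finsupp.smul_apply, smul_eq_mul]
  by_cases hpn : p ∣ n
  · have hpy := hs p hp hpn
    have h1 : p ∣ primorial y := by
      unfold primorial
      apply Finset.dvd_prod_of_mem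
      rw [Finset.mem_filter, Finset.mem_range]
      exact ⟨by omega, hp⟩
    have h2 : 1 ≤ (primorial y).factorization p :=
      (hp.dvd_iff_one_le_factorization hp0).1 h1
    have h3 : n.factorization p ≤ Nat.log 2 T := by
      apply Nat.le_log_of_pow_le (by norm_num)
      calc 2 ^ n.factorization p ≤ p ^ n.factorization p := Nat.pow_le_pow_left hp.two_le _
        _ ≤ n := Nat.ordProj_le p hn
        _ ≤ T := hnT
    calc n.factorization p ≤ Nat.log 2 T := h3
      _ = Nat.log 2 T * 1 := by ring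
      _ ≤ _ := Nat.mul_le_mul_left _ h2
  · rw [Nat.factorization_eq_zero_of_not_dvd hpn]
    exact Nat.zero_le _

end Pool.Agent.P8H19.AGP
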