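import Mathlib
import Pool.Agent.P8H19.AGP.Count

/-!
Many primes of the form `1 + d k`, `d ∣ L`, with one cofactor `k` coprime to `L`.
-/

set_option autoImplicit false

namespace Pool.Agent.P8H19.AGP

open Finset

open Classical in
/-- the cofactors `k` for the divisor `d` -/
noncomputable def KK (L z X d : ℕ) : Finset ℕ :=
  (Icc 1 X).filter (fun k => k.Coprime L ∧ (1 + d * k).Prime ∧ z < 1 + d * k)

/-- the sum over the primes in the admissible classes -/
theorem sum_classes {L z K q₁ d : ℕ} {c : ℝ} (Q : Finset ℕ) (hQ : ∀ q ∈ Q, q.Prime ∧ 5 ≤ q)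
    (hL : L = ∏ q ∈ Q, q) (hd : d ∣ L) (hz : (L * L) ^ 16 ≤ z) (hc : 0 < c)
    (hq : ¬ q₁ ∣ d * L)
    (h : ∀ m b : ℕ, 0 < m → m ^ 16 ≤ z → ¬ q₁ ∣ m → b.Coprime m →
      c / (m.totient : ℝ) ≤
        ∑ p ∈ (Ioc z (z ^ K)).filter (fun p => p.Prime ∧ p ≡ b [MOD m]), (1 : ℝ) / p) :
    c * (3 / 5) ^ Q.card ≤ ∑ k ∈ KK L z (z ^ K) d, (1 : ℝ) / k := by
  classical
  have hL0 : 0 < L := by rw [hL]; exact Finset.prod_pos fun r hr => (hQ r hr).1.pos
  have hd0 : 0 < d := Nat.pos_of_dvd_of_pos hd hL0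
  have hdL : d ≤ L := Nat.le_of_dvd hL0 hd
  have hm0 : 0 < d * L := Nat.mul_pos hd0 hL0
  obtain ⟨U, hU⟩ : ∃ U, U = (range L).filter (fun u => u.Coprime L ∧ (1 + d * u).Coprime L) :=
    ⟨_, rfl⟩
  have hUcard : (3 / 5 : ℝ) ^ Q.card * (L : ℝ) ≤ (U.card : ℝ) := by
    have := count_ge Q hQ d
    rw [← hL, ← hU] at this
    exact this
  obtain ⟨S, hS⟩ : ∃ S : ℕ → Finset ℕ, S = fun u => (Ioc z (z ^ K)).filter
      (fun p => p.Prime ∧ p ≡ 1 + d * u [MOD d * L]) := ⟨_, rfl⟩
  have hpage : ∀ u ∈ U, c / (d * L : ℕ) ≤ ∑ p ∈ S u, (1 : ℝ) / p := by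
    intro u hu
    rw [hU, mem_filter] at hu
    have h1 : (d * L) ^ 16 ≤ z := le_trans (Nat.pow_le_pow_left (Nat.mul_le_mul_right L hdL) 16) hz
    have h2 : (1 + d * u).Coprime (d * L) := by
      apply Nat.Coprime.mul_right _ hu.2.2
      exact (Nat.coprime_add_mul_left_left 1 d u).2 (Nat.coprime_one_left d)
    have h3 := h (d * L) (1 + d * u) hm0 h1 hq h2
    rw [hS]
    refine le_trans ?_ h3
    apply div_le_div_of_nonneg_left hc.le
    · exact_mod_cast Nat.totient_pos.2 hm0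
    · exact_mod_cast Nat.totient_le _
  have hdisj : ∀ u ∈ U, ∀ v ∈ U, u ≠ v → Disjoint (S u) (S v) := by
    intro u hu v hv huv
    rw [Finset.disjoint_left]
    intro p hp hp'
    rw [hS] at hp hp'
    simp only [mem_filter] at hp hp'
    have h1 : 1 + d * u ≡ 1 + d * v [MOD d * L] := hp.2.2.symm.trans hp'.2.2
    have h2 : d * u ≡ d * v [MOD d * L] := Nat.ModEq.add_left_cancel' 1 h1
    have h3 : u ≡ v [MOD L] := Nat.ModEq.mul_left_cancel' hd0.ne' h2
    rw [hU, mem_filter, mem_range] at hu hv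
    exact huv (Nat.ModEq.eq_of_lt_of_lt h3 hu.1 hv.1)
  -- all primes in the classes
  obtain ⟨P, hP⟩ : ∃ P, P = U.biUnion S := ⟨_, rfl⟩
  have hsumP : c / (d * L : ℕ) * U.card ≤ ∑ p ∈ P, (1 : ℝ) / p := by
    rw [hP, Finset.sum_biUnion (fun u hu v hv huv => hdisj u hu v hv huv)]
    calc c / (d * L : ℕ) * U.card = ∑ u ∈ U, c / (d * L : ℕ) := by
          rw [sum_const, nsmul_eq_mul, mul_comm]
      _ ≤ _ := sum_le_sum hpage
  have hex : ∀ p ∈ P, p = 1 + d * ((p - 1) / d) ∧ ((p - 1) / d) ∈ KK L z (z ^ K) d := by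
    intro p hp
    rw [hP, mem_biUnion] at hp
    obtain ⟨u, hu, hp⟩ := hp
    rw [hS] at hp
    simp only [mem_filter, mem_Ioc] at hp
    obtain ⟨⟨hp1, hp2⟩, hp3, hp4⟩ := hp
    have hp5 : 1 ≤ p := hp3.one_lt.le
    have h1 : p ≡ 1 + d * u [MOD d] := hp4.of_mul_right L
    have h2 : 1 ≡ p [MOD d] := by
      have : 1 + d * u ≡ 1 [MOD d] := by
        have := (Nat.modEq_zero_iff_dvd.2 (Dvd.intro u rfl : d ∣ d * u))
        exact Nat.ModEq.add_left 1 this
      exact (h1.trans this).symm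
    have h3 : d ∣ p - 1 := (Nat.modEq_iff_dvd' hp5).1 h2
    obtain ⟨k, hk⟩ := h3
    have hk' : (p - 1) / d = k := by rw [hk]; exact Nat.mul_div_cancel_left _ hd0
    have hpk : p = 1 + d * k := by omega
    rw [hk']
    refine ⟨hpk, ?_⟩
    unfold KK
    rw [mem_filter, mem_Icc]
    have h4 : d * k ≡ d * u [MOD d * L] := by
      rw [hpk] at hp4
      exact Nat.ModEq.add_left_cancel' 1 hp4
    have h5 : k ≡ u [MOD L] := Nat.ModEq.mul_left_cancel' hd0.ne' h4
    rw [hU, mem_filter] at hu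
    have h6 : k.Coprime L := by
      have := h5.gcd_eq
      rw [Nat.Coprime, this]
      exact hu.2.1
    have hk0 : 1 ≤ k := by
      rcases Nat.eq_zero_or_pos k with h0 | h0
      · rw [h0] at hpk
        have := hp3.one_lt
        omega
      · exact h0
    refine ⟨⟨hk0, ?_⟩, h6, ?_, ?_⟩
    · have : k ≤ d * k := Nat.le_mul_of_pos_left k hd0
      omega
    · rw [← hpk]; exact hp3
    · rw [← hpk]; exact hp1
  have hfin : ∑ p ∈ P, (1 : ℝ) / p ≤ (1 / (d : ℝ)) * ∑ k ∈ KK L z (z ^ K) d, (1 : ℝ) / k := by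
    calc ∑ p ∈ P, (1 : ℝ) / p ≤ ∑ p ∈ P, (1 : ℝ) / (d * ((p - 1) / d : ℕ)) := by
          apply sum_le_sum
          intro p hp
          obtain ⟨g1, g2⟩ := hex p hp
          obtain ⟨k, hk⟩ : ∃ k, k = (p - 1) / d := ⟨_, rfl⟩
          rw [← hk] at g1 g2 ⊢
          unfold KK at g2
          rw [mem_filter, mem_Icc] at g2
          have hk0 : (0 : ℝ) < k := by exact_mod_cast g2.1.1
          have hdR : (0 : ℝ) < d := by exact_mod_cast hd0
          apply one_div_le_one_div_of_le (by positivity)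
          have : ((d * k : ℕ) : ℝ) ≤ (p : ℝ) := by exact_mod_cast (by omega)
          push_cast at this
          exact this
      _ = ∑ k ∈ P.image (fun p => (p - 1) / d), (1 : ℝ) / (d * k) := by
          rw [sum_image]
          intro p hp p' hp' hpp
          rw [mem_coe] at hp hp'
          have g1 := (hex p hp).1
          have g2 := (hex p' hp').1
          simp only at hpp
          rw [g1, g2, hpp]
      _ ≤ ∑ k ∈ KK L z (z ^ K) d, (1 : ℝ) / (d * k) := by
          apply sum_le_sum_of_subset_of_nonneg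
          · intro k hk
            rw [mem_image] at hk
            obtain ⟨p, hp, rfl⟩ := hk
            exact (hex p hp).2
          · intro k _ _
            positivity
      _ = _ := by
          rw [mul_sum]
          apply sum_congr rfl
          intro k _
          rw [div_mul_div_comm, one_mul]
  have hdR : (0 : ℝ) < d := by exact_mod_cast hd0
  have hLR : (0 : ℝ) < L := by exact_mod_cast hL0
  have h1 := hsumP.trans hfin
  have h2 : (1 / (d : ℝ)) * (c * (3 / 5) ^ Q.card) ≤ c / (d * L : ℕ) * U.card := by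
    calc (1 / (d : ℝ)) * (c * (3 / 5) ^ Q.card) = c / (d * L : ℕ) * ((3 / 5 : ℝ) ^ Q.card * L) := by
          push_cast; field_simp
      _ ≤ _ := mul_le_mul_of_nonneg_left hUcard (by positivity)
  exact le_of_mul_le_mul_left (h2.trans h1) (by positivity)

/-- a popular cofactor -/
theorem popular {L z K : ℕ} {c' : ℝ} (D : Finset ℕ) (hz : 2 ≤ z) (hc : 0 < c') (hD : 0 < D.card)
    (h : ∀ d ∈ D, c' ≤ ∑ k ∈ KK L z (z ^ K) d, (1 : ℝ) / k) :
    ∃ k : ℕ, 0 < k ∧ k.Coprime L ∧ c' * D.card / (1 + K * Real.log z) ≤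
      ((D.filter (fun d => (1 + d * k).Prime ∧ z < 1 + d * k)).card : ℝ) := by
  classical
  have hz0 : (0 : ℝ) < z := by exact_mod_cast (by omega : 0 < z)
  have hlogz : 0 < Real.log z := Real.log_pos (by exact_mod_cast (by omega : 1 < z))
  have h3 : ∑ k ∈ Icc 1 (z ^ K), (1 : ℝ) / k ≤ 1 + K * Real.log z := by
    have e2 := harmonic_le_one_add_log (z ^ K)
    have e3 : ((harmonic (z ^ K) : ℚ) : ℝ) = ∑ k ∈ Icc 1 (z ^ K), (1 : ℝ) / k := by
      rw [harmonic_eq_sum_Icc]
      push_cast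
      apply sum_congr rfl
      intro k _
      rw [one_div]
    rw [e3] at e2
    have e4 : Real.log ((z ^ K : ℕ) : ℝ) = K * Real.log z := by
      rw [Nat.cast_pow, Real.log_pow]
    rw [e4] at e2
    exact e2
  have hS0 : 0 < 1 + K * Real.log z := by positivity
  have hDR : (0 : ℝ) < D.card := by exact_mod_cast hD
  by_contra hcon
  push Not at hcon
  -- sum over `d`
  have h2 : D.card * c' ≤ ∑ k ∈ Icc 1 (z ^ K), (1 : ℝ) / k *
      ((D.filter (fun d => k ∈ KK L z (z ^ K) d)).card : ℝ) := by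
    calc D.card * c' = ∑ d ∈ D, c' := by rw [sum_const, nsmul_eq_mul]
      _ ≤ ∑ d ∈ D, ∑ k ∈ KK L z (z ^ K) d, (1 : ℝ) / k := sum_le_sum h
      _ = ∑ d ∈ D, ∑ k ∈ Icc 1 (z ^ K), if k ∈ KK L z (z ^ K) d then (1 : ℝ) / k else 0 := by
          apply sum_congr rfl
          intro d _
          rw [← sum_filter]
          apply sum_congr _ (fun _ _ => rfl)
          ext k
          rw [mem_filter]
          constructor
          · intro hk
            refine ⟨?_, hk⟩
            unfold KK at hk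
            exact (mem_filter.1 hk).1
          · exact fun hk => hk.2
      _ = ∑ k ∈ Icc 1 (z ^ K), ∑ d ∈ D, if k ∈ KK L z (z ^ K) d then (1 : ℝ) / k else 0 := sum_comm
      _ = _ := by
          apply sum_congr rfl
          intro k _
          rw [← sum_filter, sum_const, nsmul_eq_mul, mul_comm]
  have h4 : ∀ k ∈ Icc 1 (z ^ K), (1 : ℝ) / k *
      ((D.filter (fun d => k ∈ KK L z (z ^ K) d)).card : ℝ) <
      (1 : ℝ) / k * (c' * D.card / (1 + K * Real.log z)) := by
    intro k hk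
    rw [mem_Icc] at hk
    have hk0 : (0 : ℝ) < k := by exact_mod_cast hk.1
    apply mul_lt_mul_of_pos_left _ (by positivity)
    rcases Finset.eq_empty_or_nonempty (D.filter (fun d => k ∈ KK L z (z ^ K) d)) with he | hne
    · rw [he, card_empty]
      push_cast
      positivity
    · obtain ⟨d, hd⟩ := hne
      have hd2 := (mem_filter.1 hd).2
      unfold KK at hd2
      have hco := (mem_filter.1 hd2).2.1
      have h5 := hcon k hk.1 hco
      refine lt_of_le_of_lt ?_ h5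
      have : (D.filter (fun d => k ∈ KK L z (z ^ K) d)).card ≤
          (D.filter (fun d => (1 + d * k).Prime ∧ z < 1 + d * k)).card := by
        apply card_le_card
        intro d hd
        rw [mem_filter] at hd ⊢
        refine ⟨hd.1, ?_⟩
        have := hd.2
        unfold KK at this
        exact (mem_filter.1 this).2.2
      exact_mod_cast this
  have h5 : (Icc 1 (z ^ K)).Nonempty := ⟨1, by rw [mem_Icc]; exact ⟨le_rfl, Nat.one_le_pow _ _ (by omega)⟩⟩
  have h6 := Finset.sum_lt_sum_of_nonempty h5 h4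
  rw [← sum_mul] at h6
  have h7 : (∑ k ∈ Icc 1 (z ^ K), (1 : ℝ) / k) * (c' * D.card / (1 + K * Real.log z)) ≤
      (1 + K * Real.log z) * (c' * D.card / (1 + K * Real.log z)) :=
    mul_le_mul_of_nonneg_right h3 (by positivity)
  have h8 : (1 + K * Real.log z) * (c' * D.card / (1 + K * Real.log z)) = D.card * c' := by
    field_simp
  linarith

/-- the proper divisors of the product, from the proper subsets -/
theorem card_proper (Q : Finset ℕ) (hQ : ∀ p ∈ Q, p.Prime) :
    (((Q.powerset.erase Q).image (fun D => ∏ p ∈ D, p)).card) = 2 ^ Q.card - 1 := by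
  classical
  rw [card_image_of_injOn, card_erase_of_mem (mem_powerset_self Q), card_powerset]
  intro D hD D' hD' h
  rw [mem_coe, mem_erase, mem_powerset] at hD hD'
  simp only at h
  have e1 := Nat.primeFactors_prod (s := D) (fun p hp => hQ p (hD.2 hp))
  have e2 := Nat.primeFactors_prod (s := D') (fun p hp => hQ p (hD'.2 hp))
  rw [← e1, ← e2, h]

/-- **The supply.** -/
theorem supply {L z K q₁ : ℕ} {c : ℝ} (Q : Finset ℕ) (hQ : ∀ q ∈ Q, q.Prime ∧ 5 ≤ q)
    (hQ1 : 1 ≤ Q.card)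
    (hL : L = ∏ q ∈ Q, q) (hz2 : 2 ≤ z) (hz : (L * L) ^ 16 ≤ z) (hc : 0 < c)
    (hq : ∀ d, d ∣ L → ¬ q₁ ∣ d * L)
    (h : ∀ m b : ℕ, 0 < m → m ^ 16 ≤ z → ¬ q₁ ∣ m → b.Coprime m →
      c / (m.totient : ℝ) ≤
        ∑ p ∈ (Ioc z (z ^ K)).filter (fun p => p.Prime ∧ p ≡ b [MOD m]), (1 : ℝ) / p) :
    ∃ (k : ℕ) (A : Finset ℕ), 0 < k ∧ k.Coprime L ∧
      (∀ d ∈ A, d ∣ L ∧ d ≠ L ∧ (1 + d * k).Prime ∧ z < 1 + d * k) ∧
      c * (6 / 5) ^ Q.card / (2 * (1 + K * Real.log z)) ≤ (A.card : ℝ) := by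
  classical
  obtain ⟨D, hD⟩ : ∃ D, D = (Q.powerset.erase Q).image (fun D => ∏ p ∈ D, p) := ⟨_, rfl⟩
  have hDcard : D.card = 2 ^ Q.card - 1 := by rw [hD]; exact card_proper Q fun p hp => (hQ p hp).1
  have h2 : 2 ≤ 2 ^ Q.card := by
    calc 2 = 2 ^ 1 := rfl
      _ ≤ 2 ^ Q.card := Nat.pow_le_pow_right (by norm_num) hQ1
  have hDpos : 0 < D.card := by omega
  have hdvd : ∀ d ∈ D, d ∣ L ∧ d ≠ L := by
    intro d hd
    rw [hD, mem_image] at hd
    obtain ⟨S, hS, rfl⟩ := hd
    rw [mem_erase, mem_powerset] at hS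
    refine ⟨by rw [hL]; exact Finset.prod_dvd_prod_of_subset _ _ _ hS.2, ?_⟩
    intro he
    apply hS.1
    have e1 := Nat.primeFactors_prod (s := S) (fun p hp => (hQ p (hS.2 hp)).1)
    have e2 := Nat.primeFactors_prod (s := Q) (fun p hp => (hQ p hp).1)
    rw [← e1, he, hL, e2]
  have hc' : 0 < c * (3 / 5) ^ Q.card := by positivity
  obtain ⟨k, hk0, hk1, hk2⟩ := popular (L := L) (K := K) D hz2 hc' hDpos
    (fun d hd => sum_classes Q hQ hL (hdvd d hd).1 hz hc (hq d (hdvd d hd).1) h)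
  refine ⟨k, D.filter (fun d => (1 + d * k).Prime ∧ z < 1 + d * k), hk0, hk1, ?_, ?_⟩
  · intro d hd
    rw [mem_filter] at hd
    exact ⟨(hdvd d hd.1).1, (hdvd d hd.1).2, hd.2.1, hd.2.2⟩
  · refine le_trans ?_ hk2
    have hlogz : 0 < Real.log z := Real.log_pos (by exact_mod_cast (by omega : 1 < z))
    have hS0 : 0 < 1 + K * Real.log z := by positivity
    have h3 : (2 : ℝ) ^ Q.card / 2 ≤ (D.card : ℝ) := by
      have h4 : (2 : ℝ) ^ Q.card ≤ 2 * (D.card : ℝ) := by
        have : 2 ^ Q.card ≤ 2 * D.card := by omega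
        exact_mod_cast this
      linarith
    have h5 : c * (6 / 5) ^ Q.card / (2 * (1 + K * Real.log z)) =
        c * (3 / 5) ^ Q.card * ((2 : ℝ) ^ Q.card / 2) / (1 + K * Real.log z) := by
      rw [show (6 / 5 : ℝ) = 3 / 5 * 2 by norm_num, mul_pow]
      field_simp
    rw [h5]
    gcongr

end Pool.Agent.P8H19.AGP
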