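import Mathlib
import Pool.Agent.P8H19.AGP.Supply
import Pool.Agent.P8H19.AGP.Step
import Pool.Agent.Y353.PS.Page
import Pool.Agent.TH194.BL.Ssp

/-!
Carmichael numbers without small prime factors, after Alford, Granville and Pomerance.
-/

set_option autoImplicit false

namespace Pool.Agent.P8H19.AGP

open Finset Filter Topology

theorem asym (C : ℝ) (hC : 0 < C) : ∃ T₁ : ℕ, ∀ T : ℕ, T₁ ≤ T →
    C * (T : ℝ) ^ 4 * (4 : ℝ) ^ (⌊(T : ℝ) ^ (3 / 4 : ℝ)⌋₊ * Nat.log 2 T) ≤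
      (6 / 5 : ℝ) ^ ((T : ℝ) ^ (7 / 8 : ℝ) - 1) := by
  have e1 : ∀ᶠ x : ℝ in atTop, Real.log x ≤ 1 / 100 * x ^ (1 / 8 : ℝ) := by
    have h := (isLittleO_log_rpow_atTop (r := 1 / 8) (by norm_num)).bound
      (show (0 : ℝ) < 1 / 100 by norm_num)
    filter_upwards [h, eventually_ge_atTop (1 : ℝ)] with x hx hx1
    have h1 : 0 ≤ x ^ (1 / 8 : ℝ) := Real.rpow_nonneg (by linarith) _
    rw [Real.norm_of_nonneg h1] at hx
    exact (Real.le_norm_self _).trans hx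
  have e2 : ∀ᶠ x : ℝ in atTop, Real.log C + 1 / 5 ≤ 1 / 10 * x ^ (7 / 8 : ℝ) := by
    have h := (tendsto_rpow_atTop (show (0 : ℝ) < 7 / 8 by norm_num)).eventually_ge_atTop
      (10 * (Real.log C + 1 / 5))
    filter_upwards [h] with x hx
    linarith
  obtain ⟨T₁, hT₁⟩ := eventually_atTop.1
    (tendsto_natCast_atTop_atTop.eventually ((e1.and e2).and (eventually_ge_atTop (1 : ℝ))))
  refine ⟨max T₁ 1, fun T hT => ?_⟩
  obtain ⟨⟨h1, h2⟩, h3⟩ := hT₁ T ((le_max_left _ _).trans hT)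
  have hT0 : (0 : ℝ) < T := by linarith
  have hTn : T ≠ 0 := by
    rintro rfl
    simp at hT0
  have hlogT : 0 ≤ Real.log T := Real.log_nonneg h3
  rw [← Real.exp_log (show (0 : ℝ) < C * (T : ℝ) ^ 4 *
    (4 : ℝ) ^ (⌊(T : ℝ) ^ (3 / 4 : ℝ)⌋₊ * Nat.log 2 T) by positivity),
    Real.rpow_def_of_pos (by norm_num : (0 : ℝ) < 6 / 5)]
  apply Real.exp_le_exp.2
  rw [Real.log_mul (by positivity) (by positivity), Real.log_mul (by positivity) (by positivity),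
    Real.log_pow, Real.log_pow]
  have h4 : (Nat.log 2 T : ℝ) * Real.log 2 ≤ Real.log T := by
    have h5 : 2 ^ Nat.log 2 T ≤ T := Nat.pow_log_le_self 2 hTn
    have h6 : ((2 : ℝ) ^ Nat.log 2 T) ≤ T := by exact_mod_cast h5
    have h7 := Real.log_le_log (by positivity) h6
    rwa [Real.log_pow] at h7
  have h5 : Real.log 4 = 2 * Real.log 2 := by
    rw [show (4 : ℝ) = 2 ^ 2 by norm_num, Real.log_pow]; norm_num
  have h6 : ((⌊(T : ℝ) ^ (3 / 4 : ℝ)⌋₊ : ℕ) : ℝ) ≤ (T : ℝ) ^ (3 / 4 : ℝ) :=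
    Nat.floor_le (by positivity)
  have h7 : ((⌊(T : ℝ) ^ (3 / 4 : ℝ)⌋₊ * Nat.log 2 T : ℕ) : ℝ) * Real.log 4 ≤
      2 * ((T : ℝ) ^ (3 / 4 : ℝ) * Real.log T) := by
    push_cast
    rw [h5]
    calc ((⌊(T : ℝ) ^ (3 / 4 : ℝ)⌋₊ : ℕ) : ℝ) * (Nat.log 2 T : ℝ) * (2 * Real.log 2)
        = 2 * (((⌊(T : ℝ) ^ (3 / 4 : ℝ)⌋₊ : ℕ) : ℝ) * ((Nat.log 2 T : ℝ) * Real.log 2)) := by ring
      _ ≤ _ := by
          apply mul_le_mul_of_nonneg_left _ (by norm_num)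
          apply mul_le_mul h6 h4 (by positivity) (by positivity)
  have h8 : (T : ℝ) ^ (3 / 4 : ℝ) * Real.log T ≤ 1 / 100 * (T : ℝ) ^ (7 / 8 : ℝ) := by
    calc (T : ℝ) ^ (3 / 4 : ℝ) * Real.log T ≤ (T : ℝ) ^ (3 / 4 : ℝ) * (1 / 100 * (T : ℝ) ^ (1 / 8 : ℝ)) :=
          mul_le_mul_of_nonneg_left h1 (by positivity)
      _ = 1 / 100 * ((T : ℝ) ^ (3 / 4 : ℝ) * (T : ℝ) ^ (1 / 8 : ℝ)) := by ring
      _ = 1 / 100 * (T : ℝ) ^ (7 / 8 : ℝ) := by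
          rw [← Real.rpow_add hT0]; norm_num
  have h9 : (T : ℝ) ^ (1 / 8 : ℝ) ≤ (T : ℝ) ^ (7 / 8 : ℝ) :=
    Real.rpow_le_rpow_of_exponent_le h3 (by norm_num)
  have h10 : 1 / 6 ≤ Real.log (6 / 5) := by
    have := Real.one_sub_inv_le_log_of_pos (show (0 : ℝ) < 6 / 5 by norm_num)
    norm_num at this ⊢
    linarith
  have h11 : Real.log (6 / 5) ≤ 1 / 5 := by
    have := Real.log_le_sub_one_of_pos (show (0 : ℝ) < 6 / 5 by norm_num)
    linarith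
  have h12 : 0 ≤ (T : ℝ) ^ (7 / 8 : ℝ) := by positivity
  have h13 : 1 / 6 * (T : ℝ) ^ (7 / 8 : ℝ) - 1 / 5 ≤ Real.log (6 / 5) * ((T : ℝ) ^ (7 / 8 : ℝ) - 1) := by
    nlinarith
  push_cast at h7 ⊢
  nlinarith

/-- **Main construction.** For every `ε > 0` and `N` there is a set `T` of at least two primes, all
larger than `N`, with the sum of reciprocals less than `ε`, such that the product `n` satisfies
`p - 1 ∣ n - 1` for all `p ∈ T`. -/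
theorem main (ε : ℝ) (hε : 0 < ε) (N : ℕ) : ∃ T : Finset ℕ, (∀ p ∈ T, p.Prime ∧ N < p) ∧
    2 ≤ T.card ∧ (∑ p ∈ T, (1 : ℝ) / p < ε) ∧ ∀ p ∈ T, p - 1 ∣ ∏ p ∈ T, p - 1 := by
  classical
  obtain ⟨K, c, hK, hc, hpage⟩ := Pool.Agent.Y353.PS.page
  obtain ⟨z0, hz0⟩ := hpage 0
  obtain ⟨T₀, hT₀⟩ := Pool.Agent.TH194.BL.ssp (3 / 4) (1 / 8) (by norm_num) (by norm_num)
    (by norm_num) 1
  obtain ⟨C, hCdef⟩ : ∃ C : ℝ, C = 2 * (1 + 32 * K) / c + 2 / ε + 1 := ⟨_, rfl⟩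
  have hKR : (1 : ℝ) ≤ K := by exact_mod_cast hK
  have hC1 : 1 ≤ C := by
    rw [hCdef]
    have : 0 ≤ 2 * (1 + 32 * (K : ℝ)) / c := by positivity
    have : 0 ≤ 2 / ε := by positivity
    linarith
  obtain ⟨T₁, hT₁⟩ := asym C (by linarith)
  obtain ⟨T, hTdef⟩ : ∃ T, T = max (max (max T₀ T₁) (max z0 N)) 100 := ⟨_, rfl⟩
  have hTT₀ : T₀ ≤ T := by rw [hTdef]; simp only [le_max_iff]; tauto
  have hTT₁ : T₁ ≤ T := by rw [hTdef]; simp only [le_max_iff]; tauto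
  have hTz0 : z0 ≤ T := by rw [hTdef]; simp only [le_max_iff]; tauto
  have hTN : N ≤ T := by rw [hTdef]; simp only [le_max_iff]; tauto
  have hT100 : 100 ≤ T := by rw [hTdef]; exact le_max_right _ _
  have hTR : (100 : ℝ) ≤ T := by exact_mod_cast hT100
  have hT0 : (0 : ℝ) < T := by linarith
  have hasym := hT₁ T hTT₁
  -- the primes `q`
  have hlog3 : ((3 : ℕ) : ℝ) ≤ Real.log T ^ 1 := by
    rw [pow_one, Real.le_log_iff_exp_le hT0]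
    have h1 := Real.exp_one_lt_d9
    have h2 : Real.exp ((3 : ℕ) : ℝ) = Real.exp 1 ^ 3 := by
      rw [← Real.exp_nat_mul]; norm_num
    rw [h2]
    calc Real.exp 1 ^ 3 ≤ 2.7182818286 ^ 3 := pow_le_pow_left₀ (Real.exp_pos 1).le h1.le 3
      _ ≤ 100 := by norm_num
      _ ≤ T := hTR
  have hssp := hT₀ T hTT₀ 3 Nat.prime_three hlog3
  obtain ⟨Q0, hQ0⟩ : ∃ Q0 : Finset ℕ, Q0 = ((Icc 1 T).filter (fun t : ℕ => t.Prime ∧ t % 4 = 3 ∧
      3 ∣ t - 1 ∧ ∀ p : ℕ, p.Prime → p ∣ t - 1 → (p : ℝ) ≤ (T : ℝ) ^ (3 / 4 : ℝ))) := ⟨_, rfl⟩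
  have hQ0card : (T : ℝ) ^ (7 / 8 : ℝ) ≤ (Q0.card : ℝ) := by
    rw [hQ0]
    have : (1 : ℝ) - 1 / 8 = 7 / 8 := by norm_num
    rw [this] at hssp
    refine hssp.trans (le_of_eq ?_)
    congr!
  have hQ0p : ∀ q ∈ Q0, q.Prime ∧ 5 ≤ q ∧ q ≤ T ∧ q - 1 ∣
      (primorial ⌊(T : ℝ) ^ (3 / 4 : ℝ)⌋₊) ^ (Nat.log 2 T) := by
    intro q hq
    rw [hQ0, mem_filter, mem_Icc] at hq
    obtain ⟨⟨h1, h2⟩, h3, h4, h5, h6⟩ := hq
    have h7 := h3.two_le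
    have h8 : 5 ≤ q := by
      by_contra hcon
      push Not at hcon
      interval_cases q <;> omega
    refine ⟨h3, h8, h2, ?_⟩
    apply dvd_primorial_pow (by omega) (by omega)
    intro p hp hpd
    exact Nat.le_floor (h6 p hp hpd)
  obtain ⟨L0, hL0⟩ : ∃ L0, L0 = ∏ q ∈ Q0, q := ⟨_, rfl⟩
  obtain ⟨z, hz⟩ : ∃ z, z = L0 ^ 32 := ⟨_, rfl⟩
  have hL05 : 5 ^ Q0.card ≤ L0 := by
    rw [hL0]
    exact Finset.pow_card_le_prod (s := Q0) (f := fun q => q) (n := 5) (fun q hq => (hQ0p q hq).2.1)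
  have hQ0T : Q0.card ≤ T := by
    rw [hQ0]
    refine (Finset.card_filter_le _ _).trans ?_
    rw [Nat.card_Icc]; omega
  have hL0T : L0 ≤ T ^ T := by
    rw [hL0]
    calc ∏ q ∈ Q0, q ≤ T ^ Q0.card := Finset.prod_le_pow_card _ _ _ (fun q hq => (hQ0p q hq).2.2.1)
      _ ≤ T ^ T := Nat.pow_le_pow_right (by omega) hQ0T
  have hL01 : 1 ≤ L0 := le_trans (Nat.one_le_pow _ _ (by norm_num)) hL05
  -- size of `z`
  have hzbig : (6 / 5 : ℝ) ^ ((T : ℝ) ^ (7 / 8 : ℝ) - 1) ≤ (z : ℝ) := by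
    have h1 : (6 / 5 : ℝ) ^ ((T : ℝ) ^ (7 / 8 : ℝ) - 1) ≤ (6 / 5 : ℝ) ^ ((Q0.card : ℕ) : ℝ) :=
      Real.rpow_le_rpow_of_exponent_le (by norm_num) (by linarith)
    rw [Real.rpow_natCast] at h1
    have h2 : (6 / 5 : ℝ) ^ Q0.card ≤ (5 : ℝ) ^ Q0.card :=
      pow_le_pow_left₀ (by norm_num) (by norm_num) _
    have h3 : (5 : ℝ) ^ Q0.card ≤ (L0 : ℝ) := by exact_mod_cast hL05
    have h4 : (L0 : ℝ) ≤ (z : ℝ) := by
      have : L0 ≤ z := by rw [hz]; exact Nat.le_self_pow (by norm_num) L0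
      exact_mod_cast this
    linarith
  have hpow1 : (1 : ℝ) ≤ (4 : ℝ) ^ (⌊(T : ℝ) ^ (3 / 4 : ℝ)⌋₊ * Nat.log 2 T) :=
    one_le_pow₀ (by norm_num)
  have hTz : T ≤ z := by
    have h1 : (T : ℝ) ≤ C * (T : ℝ) ^ 4 * (4 : ℝ) ^ (⌊(T : ℝ) ^ (3 / 4 : ℝ)⌋₊ * Nat.log 2 T) := by
      have h2 : (T : ℝ) ≤ (T : ℝ) ^ 4 := by
        calc (T : ℝ) = (T : ℝ) ^ 1 := (pow_one _).symm
          _ ≤ (T : ℝ) ^ 4 := pow_le_pow_right₀ (by linarith) (by norm_num)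
      calc (T : ℝ) ≤ 1 * (T : ℝ) ^ 4 * 1 := by linarith
        _ ≤ _ := by gcongr
    exact_mod_cast h1.trans (hasym.trans hzbig)
  obtain ⟨q₁, hq₁, hp⟩ := hz0 z (hTz0.trans hTz)
  have hq₁1 : 1 < q₁ := by
    rw [pow_zero] at hq₁
    exact_mod_cast hq₁
  -- remove one prime
  obtain ⟨Q, hQ⟩ : ∃ Q, Q = Q0.erase q₁.minFac := ⟨_, rfl⟩
  have hQsub : Q ⊆ Q0 := by rw [hQ]; exact Finset.erase_subset _ _
  have hQcard : (T : ℝ) ^ (7 / 8 : ℝ) - 1 ≤ (Q.card : ℝ) := by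
    have h1 : Q0.card ≤ Q.card + 1 := by
      rw [hQ]
      have := Finset.pred_card_le_card_erase (s := Q0) (a := q₁.minFac)
      omega
    have h2 : (Q0.card : ℝ) ≤ Q.card + 1 := by exact_mod_cast h1
    linarith
  have hQp : ∀ q ∈ Q, q.Prime ∧ 5 ≤ q := fun q hq => ⟨(hQ0p q (hQsub hq)).1, (hQ0p q (hQsub hq)).2.1⟩
  have h78 : (10 : ℝ) ≤ (T : ℝ) ^ (7 / 8 : ℝ) := by
    calc (10 : ℝ) = (100 : ℝ) ^ (1 / 2 : ℝ) := by
          rw [show (100 : ℝ) = 10 ^ (2 : ℝ) by norm_num, ← Real.rpow_mul (by norm_num)]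
          norm_num
      _ ≤ (100 : ℝ) ^ (7 / 8 : ℝ) := Real.rpow_le_rpow_of_exponent_le (by norm_num) (by norm_num)
      _ ≤ (T : ℝ) ^ (7 / 8 : ℝ) := Real.rpow_le_rpow (by norm_num) hTR (by norm_num)
  have hQ1 : 1 ≤ Q.card := by
    have : (1 : ℝ) ≤ (Q.card : ℝ) := by linarith
    exact_mod_cast this
  obtain ⟨L, hL⟩ : ∃ L, L = ∏ q ∈ Q, q := ⟨_, rfl⟩
  have hL1 : 0 < L := by rw [hL]; exact Finset.prod_pos fun q hq => (hQp q hq).1.pos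
  have hLL0 : L ≤ L0 := by
    rw [hL, hL0]
    apply Nat.le_of_dvd (by rw [← hL0]; omega)
    exact Finset.prod_dvd_prod_of_subset _ _ _ hQsub
  have hLz : (L * L) ^ 16 ≤ z := by
    rw [hz, show 32 = 2 * 16 by norm_num, pow_mul, pow_two]
    exact Nat.pow_le_pow_left (Nat.mul_le_mul hLL0 hLL0) 16
  have hLz' : L ≤ z := hLL0.trans (by rw [hz]; exact Nat.le_self_pow (by norm_num) L0)
  have hz2 : 2 ≤ z := by omega
  have hmf : q₁.minFac.Prime := Nat.minFac_prime (by omega)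
  have hndL : ¬ q₁.minFac ∣ L := by
    rw [hL]
    intro h1
    obtain ⟨q, hq, hqd⟩ := (Prime.dvd_finsetProd_iff hmf.prime _).1 h1
    have h2 := (Nat.prime_dvd_prime_iff_eq hmf (hQp q hq).1).1 hqd
    rw [hQ, mem_erase] at hq
    exact hq.1 h2.symm
  have hnd : ∀ d, d ∣ L → ¬ q₁ ∣ d * L := by
    intro d hd h1
    have h2 : q₁.minFac ∣ d * L := (Nat.minFac_dvd q₁).trans h1
    rcases (Nat.Prime.dvd_mul hmf).1 h2 with h3 | h3
    · exact hndL (h3.trans hd)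
    · exact hndL h3
  obtain ⟨k, A, hk0, hkL, hA, hAcard⟩ := supply (K := K) Q hQp hQ1 hL hz2 hLz hc hnd
    (fun m b hm hm16 hmq hb => by
      have := hp m b hm hm16 hmq hb
      convert this using 2)
  -- parameters
  obtain ⟨m, hm⟩ : ∃ m, m = (primorial ⌊(T : ℝ) ^ (3 / 4 : ℝ)⌋₊) ^ (Nat.log 2 T) := ⟨_, rfl⟩
  have hm1 : 1 ≤ m := by rw [hm]; exact Nat.one_le_pow _ _ (primorial_pos _)
  have hmle : (m : ℝ) ≤ (4 : ℝ) ^ (⌊(T : ℝ) ^ (3 / 4 : ℝ)⌋₊ * Nat.log 2 T) := by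
    rw [hm, pow_mul]
    have := primorial_le_four_pow ⌊(T : ℝ) ^ (3 / 4 : ℝ)⌋₊
    exact_mod_cast Nat.pow_le_pow_left this _
  obtain ⟨k₀, hk₀⟩ : ∃ k₀, k₀ = m * T ^ 2 := ⟨_, rfl⟩
  have hk₀R : (k₀ : ℝ) * (C * T ^ 2) ≤ (6 / 5 : ℝ) ^ ((T : ℝ) ^ (7 / 8 : ℝ) - 1) := by
    refine le_trans ?_ hasym
    rw [hk₀]
    push_cast
    calc (m : ℝ) * (T : ℝ) ^ 2 * (C * T ^ 2) = C * (T : ℝ) ^ 4 * m := by ring
      _ ≤ _ := by gcongr
  have hk₀0 : (0 : ℝ) ≤ k₀ := Nat.cast_nonneg _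
  -- enough primes
  have hlogL0 : Real.log L0 ≤ (T : ℝ) ^ 2 := by
    have h1 : (L0 : ℝ) ≤ (T : ℝ) ^ T := by exact_mod_cast hL0T
    have h2 := Real.log_le_log (by exact_mod_cast hL01) h1
    rw [Real.log_pow] at h2
    have h3 : Real.log T ≤ T := (Real.log_le_sub_one_of_pos hT0).trans (by linarith)
    calc Real.log L0 ≤ T * Real.log T := h2
      _ ≤ T * T := mul_le_mul_of_nonneg_left h3 hT0.le
      _ = _ := by ring
  have hlogz : Real.log z = 32 * Real.log L0 := by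
    rw [hz]; push_cast; rw [Real.log_pow]; norm_num
  have hlogL00 : 0 ≤ Real.log L0 := Real.log_nonneg (by exact_mod_cast hL01)
  have hQpow : (6 / 5 : ℝ) ^ ((T : ℝ) ^ (7 / 8 : ℝ) - 1) ≤ (6 / 5 : ℝ) ^ Q.card := by
    rw [← Real.rpow_natCast]
    exact Real.rpow_le_rpow_of_exponent_le (by norm_num) hQcard
  have hkA : k₀ ≤ A.card := by
    have h1 : (k₀ : ℝ) ≤ c * (6 / 5) ^ Q.card / (2 * (1 + K * Real.log z)) := by
      have hden : 0 < 2 * (1 + K * Real.log z) := by rw [hlogz]; positivity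
      rw [le_div_iff₀ hden]
      have h2 : 2 * (1 + K * Real.log z) ≤ 2 * (1 + 32 * K) * (T : ℝ) ^ 2 := by
        rw [hlogz]
        have h3 : (K : ℝ) * (32 * Real.log L0) ≤ K * (32 * (T : ℝ) ^ 2) := by gcongr
        have h4 : (1 : ℝ) ≤ (T : ℝ) ^ 2 := one_le_pow₀ (by linarith)
        have h5 : 2 * (1 + 32 * (K : ℝ)) * (T : ℝ) ^ 2 = 2 * (T : ℝ) ^ 2 + 2 * (K * (32 * (T : ℝ) ^ 2)) := by
          ring
        rw [h5]
        linarith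
      have h5 : 2 * (1 + 32 * (K : ℝ)) ≤ C * c := by
        have h6 : C * c = 2 * (1 + 32 * K) + (2 / ε + 1) * c := by
          rw [hCdef]; field_simp; ring
        rw [h6]
        have : 0 ≤ (2 / ε + 1) * c := by positivity
        linarith
      calc (k₀ : ℝ) * (2 * (1 + K * Real.log z)) ≤ k₀ * (2 * (1 + 32 * K) * (T : ℝ) ^ 2) := by gcongr
        _ ≤ k₀ * (C * c * (T : ℝ) ^ 2) := by gcongr
        _ = c * (k₀ * (C * T ^ 2)) := by ring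
        _ ≤ c * (6 / 5) ^ Q.card := by
            apply mul_le_mul_of_nonneg_left _ hc.le
            exact hk₀R.trans hQpow
    exact_mod_cast h1.trans hAcard
  have hs : (L.totient : ℝ) * (1 - 1 / (m : ℝ)) ^ k₀ < 1 := by
    have hmR : (1 : ℝ) ≤ m := by exact_mod_cast hm1
    have h1 : (1 - 1 / (m : ℝ)) ^ m ≤ Real.exp (-1) := by
      have h2 : 1 - 1 / (m : ℝ) ≤ Real.exp (-(1 / (m : ℝ))) := by
        have := Real.add_one_le_exp (-(1 / (m : ℝ)))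
        linarith
      have h3 : 0 ≤ 1 - 1 / (m : ℝ) := by
        have : 1 / (m : ℝ) ≤ 1 := by rw [div_le_one (by linarith)]; exact hmR
        linarith
      calc (1 - 1 / (m : ℝ)) ^ m ≤ (Real.exp (-(1 / (m : ℝ)))) ^ m := pow_le_pow_left₀ h3 h2 m
        _ = Real.exp (-1) := by
            rw [← Real.exp_nat_mul]
            congr 1
            field_simp
    have h3 : 0 ≤ 1 - 1 / (m : ℝ) := by
      have : 1 / (m : ℝ) ≤ 1 := by rw [div_le_one (by linarith)]; exact hmR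
      linarith
    have h4 : (1 - 1 / (m : ℝ)) ^ k₀ ≤ Real.exp (-((T : ℝ) ^ 2)) := by
      rw [hk₀, pow_mul]
      calc ((1 - 1 / (m : ℝ)) ^ m) ^ T ^ 2 ≤ (Real.exp (-1)) ^ T ^ 2 :=
            pow_le_pow_left₀ (pow_nonneg h3 m) h1 _
        _ = _ := by
            rw [← Real.exp_nat_mul]
            congr 1
            push_cast
            ring
    have h5 : (L.totient : ℝ) ≤ Real.exp (T * Real.log T) := by
      have h6 : L.totient ≤ T ^ T := (Nat.totient_le L).trans (hLL0.trans hL0T)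
      have h7 : (L.totient : ℝ) ≤ (T : ℝ) ^ T := by exact_mod_cast h6
      refine h7.trans (le_of_eq ?_)
      rw [Real.exp_nat_mul, Real.exp_log hT0]
    have h6 : Real.log T < T := by
      have := Real.log_le_sub_one_of_pos hT0
      linarith
    calc (L.totient : ℝ) * (1 - 1 / (m : ℝ)) ^ k₀
        ≤ Real.exp (T * Real.log T) * Real.exp (-((T : ℝ) ^ 2)) :=
          mul_le_mul h5 h4 (pow_nonneg h3 _) (Real.exp_pos _).le
      _ = Real.exp (T * Real.log T - (T : ℝ) ^ 2) := by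
          rw [← Real.exp_add]
          congr 1
      _ < 1 := by
          rw [Real.exp_lt_one_iff]
          nlinarith
  obtain ⟨S, hS1, hS2, hS3, hS4⟩ := step A hL1 hLz' hk0 hkL hA hm1
    (fun a ha => exponent Q (fun q hq => (hQp q hq).1) hL
      (fun q hq => by rw [hm]; exact (hQ0p q (hQsub hq)).2.2.2) a ha) hkA hs
  refine ⟨S, fun p hp => ⟨(hS1 p hp).1, lt_of_le_of_lt (hTN.trans hTz) (hS1 p hp).2⟩, hS2, ?_, hS4⟩
  have hzR : (0 : ℝ) < z := by exact_mod_cast (by omega : 0 < z)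
  have h1 : ∑ p ∈ S, (1 : ℝ) / p ≤ ∑ _p ∈ S, (1 : ℝ) / z := by
    apply sum_le_sum
    intro p hp
    apply one_div_le_one_div_of_le hzR
    exact_mod_cast (hS1 p hp).2.le
  rw [sum_const, nsmul_eq_mul] at h1
  have h2 : (S.card : ℝ) ≤ k₀ := by exact_mod_cast hS3
  have h3 : (k₀ : ℝ) * (C * T ^ 2) ≤ z := hk₀R.trans hzbig
  have h4 : (k₀ : ℝ) * C ≤ z := by
    have h5 : (1 : ℝ) ≤ (T : ℝ) ^ 2 := one_le_pow₀ (by linarith)
    calc (k₀ : ℝ) * C = k₀ * (C * 1) := by ring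
      _ ≤ k₀ * (C * T ^ 2) := by gcongr
      _ ≤ z := h3
  have h5 : (S.card : ℝ) * (1 / z) ≤ 1 / C := by
    rw [mul_one_div, div_le_div_iff₀ hzR (by linarith)]
    calc (S.card : ℝ) * C ≤ k₀ * C := by gcongr
      _ ≤ 1 * z := by linarith
  have h6 : 1 / C < ε := by
    rw [div_lt_iff₀ (by linarith)]
    have h7 : ε * C = ε * (2 * (1 + 32 * K) / c) + 2 + ε := by
      rw [hCdef]; field_simp
    rw [h7]
    have : 0 ≤ ε * (2 * (1 + 32 * (K : ℝ)) / c) := by positivity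
    linarith
  linarith

end Pool.Agent.P8H19.AGP
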